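import Mathlib
import Pool.Agent.H991.AP.Dec2

/-!
# Decomposition of the solutions into phases
-/

open MeasureTheory Filter
open scoped ENNReal NNReal Topology

open Pool.Agent.H991.AP hiding Cph Cph_zero Cph_smul Cph_sum dec_step dec_cone dec

namespace Pool.Agent.H991.PS

noncomputable section

variable {X : Type*} [TopologicalSpace X] [CompactSpace X] [T2Space X] [SecondCountableTopology X]
  [MeasurableSpace X] [BorelSpace X] {κ : Type*}

/-- the measures in the phase with the order parameter `g` -/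
def Cph {I : Type*} (Φ : κ → (X → ℝ) → X → ℝ) (g : I → X → ℝ) (δ : ℝ) (m : Measure X) : Prop :=
  Con Φ m ∧ ∀ i, ∫ x, (1 - g i x) ∂m ≤ δ * m.real Set.univ

omit [CompactSpace X] [T2Space X] [SecondCountableTopology X] [BorelSpace X] in
lemma Cph_zero {I : Type*} (Φ : κ → (X → ℝ) → X → ℝ) (g : I → X → ℝ) (δ : ℝ) :
    Cph Φ g δ (0 : Measure X) :=
  ⟨Con_zero Φ, fun i => by simp⟩

omit [CompactSpace X] [T2Space X] [SecondCountableTopology X] [BorelSpace X] in
lemma Cph_smul {I : Type*} {Φ : κ → (X → ℝ) → X → ℝ} {g : I → X → ℝ} {δ : ℝ} {m : Measure X}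
    (h : Cph Φ g δ m) {q : ℝ≥0∞} (hq : q ≠ ∞) : Cph Φ g δ (q • m) := by
  refine ⟨Con_smul h.1 hq, fun i => ?_⟩
  rw [integral_smul_measure, measureReal_ennreal_smul_apply, smul_eq_mul]
  have h1 := mul_le_mul_of_nonneg_left (h.2 i) (ENNReal.toReal_nonneg (a := q))
  linarith

/-- one step of the decomposition -/
theorem dec_step {Z I : Type*} [Fintype Z] {Φ : κ → (X → ℝ) → X → ℝ}
    (hΦ : ∀ k F, Continuous F → Continuous (Φ k F)) {ω : Measure X} (hω : Sol Φ ω)
    (g : Z → I → X → ℝ) (hg : ∀ z i, Continuous (g z i)) (b : Z → ℕ → X → ℝ)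
    (hb : ∀ z n, Continuous (b z n)) (h0 : ∀ z n x, 0 ≤ b z n x) (h1 : ∀ n x, ∑ z, b z n x ≤ 1)
    (p : Z → ℝ) (hp : ∀ z n, ∫ x, b z n x ∂ω = p z)
    (hinv : ∀ z k F, Continuous F → Tendsto (fun n => ∫ x, Φ k F x * b z n x ∂ω -
      ∫ x, F x * b z n x ∂ω) atTop (𝓝 0))
    {η δ : ℝ} (hη : 0 ≤ η) (hδ : 0 < δ) (hcor : ∀ z i n, ∫ x, (1 - g z i x) * b z n x ∂ω ≤ η)
    (hsum : 1 - η ≤ ∑ z, p z) (hsmall : η + Fintype.card Z * (η / δ) ≤ 1 / 2) :
    ∃ (m : Z → Measure X) (r : Measure X), (∀ z, Cph Φ (g z) δ (m z)) ∧ Con Φ r ∧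
      r.real Set.univ ≤ 1 / 2 ∧ ω = ∑ z, m z + r := by
  classical
  have i1 := hω.1
  obtain ⟨A, hA⟩ : ∃ A : Finset Z, A = Finset.univ.filter fun z => η / δ ≤ p z := ⟨_, rfl⟩
  have hp0 : ∀ z, 0 ≤ p z := fun z => by rw [← hp z 0]; exact integral_nonneg (h0 z 0)
  have hm : ∀ z, ∃ m : Measure X, Con Φ m ∧ ∀ F : X → ℝ, Continuous F →
      Tendsto (fun n => ∫ x, F x * b z n x ∂ω) (hyperfilter ℕ : Filter ℕ) (𝓝 (∫ x, F x ∂m)) :=
    fun z => lim_meas hΦ (b z) (hb z) (h0 z) (hp z) (hinv z)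
  choose m hmC hmF using hm
  have hbi : ∀ z n (F : X → ℝ), Continuous F → Integrable (fun x => F x * b z n x) ω :=
    fun z n F hF => cont_int (hF.mul (hb z n)) ω
  obtain ⟨b', hb'⟩ : ∃ b' : ℕ → X → ℝ, b' = fun n x => 1 - ∑ z ∈ A, b z n x := ⟨_, rfl⟩
  have hb'c : ∀ n, Continuous (b' n) := fun n => by
    rw [hb']
    exact continuous_const.sub (continuous_finsetSum _ fun z _ => hb z n)
  have hb'0 : ∀ n x, 0 ≤ b' n x := by
    intro n x
    rw [hb']
    have : ∑ z ∈ A, b z n x ≤ ∑ z, b z n x :=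
      Finset.sum_le_sum_of_subset_of_nonneg (Finset.subset_univ _) fun z _ _ => h0 z n x
    simp only
    linarith [h1 n x]
  have hb'F : ∀ n (F : X → ℝ), Continuous F → ∫ x, F x * b' n x ∂ω =
      ∫ x, F x ∂ω - ∑ z ∈ A, ∫ x, F x * b z n x ∂ω := by
    intro n F hF
    rw [hb']
    simp only
    rw [← integral_finsetSum _ fun z _ => hbi z n F hF, ← integral_sub (cont_int hF ω)
      (integrable_finsetSum _ fun z _ => hbi z n F hF)]
    refine integral_congr_ae (Eventually.of_forall fun x => ?_)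
    simp only
    rw [mul_sub, mul_one, Finset.mul_sum]
  have hq' : ∀ n, ∫ x, b' n x ∂ω = 1 - ∑ z ∈ A, p z := by
    intro n
    have h2 := hb'F n (fun _ => 1) continuous_const
    simp only [one_mul, hp, integral_const, probReal_univ, smul_eq_mul] at h2
    exact h2
  obtain ⟨r, hrC, hrF⟩ := lim_meas hΦ b' hb'c hb'0 hq' (fun k F hF => by
    have h2 : Tendsto (fun n => ∑ z ∈ A, (∫ x, Φ k F x * b z n x ∂ω - ∫ x, F x * b z n x ∂ω)) atTop
        (𝓝 (∑ _z ∈ A, 0)) := tendsto_finsetSum _ fun z _ => hinv z k F hF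
    rw [Finset.sum_const_zero] at h2
    have h3 := h2.neg
    rw [neg_zero] at h3
    refine h3.congr fun n => ?_
    rw [hb'F n _ (hΦ k F hF), hb'F n F hF, hω.2 k F hF, Finset.sum_sub_distrib]
    ring)
  have hmass : ∀ z, (m z).real Set.univ = p z := by
    intro z
    have := (hmC z).1
    have h2 := hmF z (fun _ => 1) continuous_const
    simp only [one_mul, hp, integral_const, smul_eq_mul, mul_one] at h2
    exact tendsto_nhds_unique h2 tendsto_const_nhds
  have hrmass : r.real Set.univ = 1 - ∑ z ∈ A, p z := by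
    have := hrC.1
    have h2 := hrF (fun _ => 1) continuous_const
    simp only [one_mul, hq', integral_const, smul_eq_mul, mul_one] at h2
    exact tendsto_nhds_unique h2 tendsto_const_nhds
  refine ⟨fun z => if z ∈ A then m z else 0, r, fun z => ?_, hrC, ?_, ?_⟩
  · by_cases hz : z ∈ A
    · simp only [hz, if_true]
      refine ⟨hmC z, fun i => ?_⟩
      rw [hmass]
      have h2 : ∫ x, (1 - g z i x) ∂(m z) ≤ η :=
        le_of_tendsto' (hmF z (fun x => 1 - g z i x) (continuous_const.sub (hg z i)))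
          fun n => hcor z i n
      have h3 : η / δ ≤ p z := by
        rw [hA, Finset.mem_filter] at hz
        exact hz.2
      rw [div_le_iff₀ hδ] at h3
      linarith
    · simp only [hz, if_false]
      exact Cph_zero _ _ _
  · rw [hrmass]
    have h2 : ∑ z, p z = ∑ z ∈ A, p z + ∑ z ∈ Finset.univ.filter (fun z => ¬ η / δ ≤ p z), p z := by
      rw [hA]
      exact (Finset.sum_filter_add_sum_filter_not _ _ _).symm
    have h3 : ∑ z ∈ Finset.univ.filter (fun z => ¬ η / δ ≤ p z), p z ≤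
        Fintype.card Z * (η / δ) := by
      calc ∑ z ∈ Finset.univ.filter (fun z => ¬ η / δ ≤ p z), p z ≤
          ∑ _z ∈ Finset.univ.filter (fun z => ¬ η / δ ≤ p z), η / δ :=
            Finset.sum_le_sum fun z hz => (not_le.1 (Finset.mem_filter.1 hz).2).le
        _ = ((Finset.univ.filter (fun z => ¬ η / δ ≤ p z)).card : ℝ) * (η / δ) := by
            rw [Finset.sum_const, nsmul_eq_mul]
        _ ≤ _ := by
            refine mul_le_mul_of_nonneg_right ?_ (by positivity)
            exact_mod_cast Finset.card_le_univ _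
    linarith
  · have hfin : ∀ z, IsFiniteMeasure (if z ∈ A then m z else 0) := by
      intro z
      split_ifs
      · exact (hmC z).1
      · infer_instance
    have := hrC.1
    refine ext_of_forall_integral_eq_of_IsFiniteMeasure fun f => ?_
    have hf := f.continuous
    rw [integral_add_measure (integrable_finsetSum_measure.2 fun z _ => cont_int hf _)
      (cont_int hf _), integral_finsetSum_measure fun z _ => cont_int hf _]
    have h2 : ∑ z, ∫ x, f x ∂(if z ∈ A then m z else 0) = ∑ z ∈ A, ∫ x, f x ∂(m z) := by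
      rw [← Finset.sum_subset (Finset.subset_univ A)]
      · exact Finset.sum_congr rfl fun z hz => by rw [if_pos hz]
      · intro z _ hz
        rw [if_neg hz, integral_zero_measure]
    rw [h2]
    have h3 := (tendsto_finsetSum A fun z _ => hmF z f hf).add (hrF f hf)
    refine tendsto_nhds_unique ?_ h3
    refine (tendsto_const_nhds (x := ∫ x, f x ∂ω)).congr fun n => ?_
    rw [hb'F n f hf]
    ring


/-- the step for finite measures -/
theorem dec_cone {Z I : Type*} [Fintype Z] {Φ : κ → (X → ℝ) → X → ℝ} (g : Z → I → X → ℝ) {δ : ℝ}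
    (hstep : ∀ ω : Measure X, Sol Φ ω → ∃ (m : Z → Measure X) (r : Measure X),
      (∀ z, Cph Φ (g z) δ (m z)) ∧ Con Φ r ∧ r.real Set.univ ≤ 1 / 2 ∧ ω = ∑ z, m z + r)
    (ω : Measure X) (hω : Con Φ ω) : ∃ (m : Z → Measure X) (r : Measure X),
      (∀ z, Cph Φ (g z) δ (m z)) ∧ Con Φ r ∧ r Set.univ ≤ 2⁻¹ * ω Set.univ ∧ ω = ∑ z, m z + r := by
  have i1 := hω.1
  rcases eq_or_ne ω 0 with h0 | h0
  · refine ⟨fun _ => 0, 0, fun z => Cph_zero _ _ _, Con_zero _, by simp, by simp [h0]⟩
  · obtain ⟨q, hq⟩ : ∃ q, q = ω Set.univ := ⟨_, rfl⟩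
    have hq0 : q ≠ 0 := by
      rw [hq]
      exact fun h => h0 (Measure.measure_univ_eq_zero.1 h)
    have hqt : q ≠ ∞ := by rw [hq]; exact measure_ne_top _ _
    have hqi : q⁻¹ ≠ ∞ := ENNReal.inv_ne_top.2 hq0
    have hSol : Sol Φ (q⁻¹ • ω) := by
      have h1 := Con_smul hω hqi
      refine ⟨⟨?_⟩, h1.2⟩
      rw [Measure.smul_apply, smul_eq_mul, ← hq]
      exact ENNReal.inv_mul_cancel hq0 hqt
    obtain ⟨m, r, hm, hr, hr2, hsum⟩ := hstep _ hSol
    refine ⟨fun z => q • m z, q • r, fun z => Cph_smul (hm z) hqt, Con_smul hr hqt, ?_, ?_⟩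
    · rw [Measure.smul_apply, smul_eq_mul, ← hq, mul_comm]
      refine mul_le_mul' ?_ le_rfl
      have := hr.1
      have h1 : r Set.univ = ENNReal.ofReal (r.real Set.univ) := by
        rw [ofReal_measureReal]
      rw [h1]
      have h2 : (2⁻¹ : ℝ≥0∞) = ENNReal.ofReal (1 / 2) := by
        rw [one_div, ENNReal.ofReal_inv_of_pos (by norm_num)]
        norm_num
      rw [h2]
      exact ENNReal.ofReal_le_ofReal hr2
    · have h1 : q • (q⁻¹ • ω) = ω := by
        rw [smul_smul, ENNReal.mul_inv_cancel hq0 hqt, one_smul]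
      rw [← h1, hsum, smul_add, Finset.smul_sum]

/-- the cone of a phase is closed under countable sums -/
lemma Cph_sum {I : Type*} {Φ : κ → (X → ℝ) → X → ℝ} (hΦ : ∀ k F, Continuous F → Continuous (Φ k F))
    {g : I → X → ℝ} (hg : ∀ i, Continuous (g i)) {δ : ℝ} {m : ℕ → Measure X} (hm : ∀ n, Cph Φ g δ (m n))
    (hfin : IsFiniteMeasure (Measure.sum m)) : Cph Φ g δ (Measure.sum m) := by
  have hi : ∀ F : X → ℝ, Continuous F → HasSum (fun n => ∫ x, F x ∂(m n)) (∫ x, F x ∂(Measure.sum m)) :=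
    fun F hF => hasSum_integral_measure (cont_int hF _)
  have hin := fun n => (hm n).1.1
  refine ⟨⟨hfin, fun k F hF => ?_⟩, fun i => ?_⟩
  · have h1 := hi _ (hΦ k F hF)
    simp only [(hm _).1.2 k F hF] at h1
    exact h1.unique (hi F hF)
  · have h1 := hi (fun x => 1 - g i x) (continuous_const.sub (hg i))
    have h2 := hi (fun _ => 1) continuous_const
    simp only [integral_const, smul_eq_mul, mul_one] at h2
    exact hasSum_le (fun n => (hm n).2 i) h1 (h2.mul_left δ)

/-- the decomposition -/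
theorem dec {Z I : Type*} [Fintype Z] {Φ : κ → (X → ℝ) → X → ℝ}
    (hΦ : ∀ k F, Continuous F → Continuous (Φ k F)) (g : Z → I → X → ℝ)
    (hg : ∀ z i, Continuous (g z i))
    {δ : ℝ}
    (hstep : ∀ ω : Measure X, Sol Φ ω → ∃ (m : Z → Measure X) (r : Measure X),
      (∀ z, Cph Φ (g z) δ (m z)) ∧ Con Φ r ∧ r.real Set.univ ≤ 1 / 2 ∧ ω = ∑ z, m z + r)
    (ω : Measure X) (hω : Con Φ ω) : ∃ m : Z → Measure X,
      (∀ z, Cph Φ (g z) δ (m z)) ∧ ω = ∑ z, m z := by
  have i1 := hω.1
  choose! M R hM hR hR2 hsum using dec_cone g hstep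
  obtain ⟨s, hs⟩ : ∃ s : ℕ → Measure X, s = fun n => R^[n] ω := ⟨_, rfl⟩
  have hs0 : s 0 = ω := by rw [hs]; rfl
  have hs1 : ∀ n, s (n + 1) = R (s n) := by
    intro n
    rw [hs]
    simp only
    rw [Function.iterate_succ_apply']
  have hsC : ∀ n, Con Φ (s n) := by
    intro n
    induction n with
    | zero => rw [hs0]; exact hω
    | succ n ih => rw [hs1]; exact hR _ ih
  have hsm : ∀ n, s n Set.univ ≤ 2⁻¹ ^ n * ω Set.univ := by
    intro n
    induction n with
    | zero => rw [hs0]; simp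
    | succ n ih =>
      rw [hs1, pow_succ', mul_assoc]
      exact (hR2 _ (hsC n)).trans (mul_le_mul' le_rfl ih)
  have hpart : ∀ n, ω = ∑ k ∈ Finset.range n, ∑ z, M (s k) z + s n := by
    intro n
    induction n with
    | zero => rw [hs0]; simp
    | succ n ih =>
      rw [Finset.sum_range_succ, hs1, add_assoc, ← hsum _ (hsC n)]
      exact ih
  have hlim : ∀ E : Set X, Tendsto (fun n => s n E) atTop (𝓝 0) := by
    intro E
    have h1 : Tendsto (fun n : ℕ => (2⁻¹ : ℝ≥0∞) ^ n * ω Set.univ) atTop (𝓝 (0 * ω Set.univ)) :=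
      ENNReal.Tendsto.mul_const (ENNReal.tendsto_pow_atTop_nhds_zero_of_lt_one
        (ENNReal.inv_lt_one.2 (by norm_num))) (Or.inr (measure_ne_top _ _))
    rw [zero_mul] at h1
    exact tendsto_of_tendsto_of_tendsto_of_le_of_le tendsto_const_nhds h1 (fun _ => zero_le)
      fun n => (measure_mono (Set.subset_univ _)).trans (hsm n)
  have heq : ω = ∑ z, Measure.sum fun k => M (s k) z := by
    refine Measure.ext fun E hE => ?_
    rw [Measure.finsetSum_apply]
    simp only [Measure.sum_apply _ hE]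
    rw [← Summable.tsum_finsetSum fun z _ => ENNReal.summable]
    have h1 := ENNReal.tendsto_nat_tsum fun k => ∑ z, M (s k) z E
    have h2 := h1.add (hlim E)
    rw [add_zero] at h2
    refine tendsto_nhds_unique (tendsto_const_nhds (x := ω E) (f := atTop)) (h2.congr fun n => ?_)
    conv_rhs => rw [hpart n]
    rw [Measure.add_apply, Measure.finsetSum_apply]
    congr 1
    refine Finset.sum_congr rfl fun k _ => ?_
    rw [Measure.finsetSum_apply]
  refine ⟨fun z => Measure.sum fun k => M (s k) z, fun z => ?_, heq⟩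
  refine Cph_sum hΦ (hg z) (fun k => hM _ (hsC k) z) ⟨?_⟩
  refine lt_of_le_of_lt ?_ (measure_lt_top ω Set.univ)
  conv_rhs => rw [heq]
  rw [Measure.finsetSum_apply]
  exact Finset.single_le_sum (f := fun z => (Measure.sum fun k => M (s k) z) Set.univ)
    (fun z _ => zero_le) (Finset.mem_univ z)

end

end Pool.Agent.H991.PS
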