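import Mathlib
import Pool.Agent.H991.AP.Mul2

/-!
# Periodic states: the probability that many blocks are bad
-/

open MeasureTheory Matrix Filter
open scoped Matrix.Norms.Frobenius Topology
open Pool.Agent.N899.SB
open Pool.Agent.N899.BB (we)
open Pool.Agent.Y14.Wilson
open Pool.Agent.H991.DC
open Pool.Agent.H991.AP

namespace Pool.Agent.H991.PS

noncomputable section

section per

variable {N : ℕ} {G : Subgroup (UU N)} [MeasurableSpace G] [BorelSpace G] [CompactSpace G]
  [SecondCountableTopology G] {D t : ℕ} [NeZero t]

/-- the translation by `M` in the direction `i` of space -/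
def pv (D t M : ℕ) (i : Fin D) : SZ D t := (Pi.single i (M : ℤ), 0)

/-- invariance under the translations by `M` in space -/
def IsP (M : ℕ) (ω : Measure (LZ D t → G)) : Prop := ∀ i : Fin D, ω.map (Tv (pv D t M i)) = ω

lemma inv_per {ω : Measure (LZ D t → G)} {M : ℕ} (hT : IsP M ω) (v : Fin D → ℤ) :
    ω.map (Tv ((fun j => (M : ℤ) * v j, 0) : SZ D t)) = ω := by
  have h0 : ω.map (Tv (0 : SZ D t)) = ω := by
    have : (Tv (0 : SZ D t) : (LZ D t → G) → (LZ D t → G)) = id := by
      funext U; exact Tv_zero U
    rw [this, Measure.map_id]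
  have h1 : ∀ (i : Fin D) (n : ℕ), ω.map (Tv ((Pi.single i ((M : ℤ) * n), 0) : SZ D t)) = ω := by
    intro i n
    induction n with
    | zero =>
      have : ((Pi.single i ((M : ℤ) * ((0 : ℕ) : ℤ)), 0) : SZ D t) = 0 := by simp
      rw [this]
      exact h0
    | succ n ih =>
      have : ((Pi.single i ((M : ℤ) * ((n + 1 : ℕ) : ℤ)), 0) : SZ D t) =
          (Pi.single i ((M : ℤ) * n), 0) + pv D t M i := by
        unfold pv
        refine Prod.ext ?_ (by simp)
        funext j
        by_cases hj : j = i
        · subst hj
          simp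
          ring
        · simp [hj]
      rw [this]
      exact inv_add ih (hT _)
  have h2 : ∀ (i : Fin D) (n : ℤ), ω.map (Tv ((Pi.single i ((M : ℤ) * n), 0) : SZ D t)) = ω := by
    intro i n
    obtain ⟨m, rfl | rfl⟩ := Int.eq_nat_or_neg n
    · exact h1 i m
    · have : ((Pi.single i ((M : ℤ) * (-(m : ℤ))), 0) : SZ D t) =
          -(Pi.single i ((M : ℤ) * m), 0) := by
        refine Prod.ext ?_ (by simp)
        funext j
        by_cases hj : j = i
        · subst hj; simp
        · simp [hj]
      rw [this]
      exact inv_neg (h1 i m)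
  have h3 : ∀ S : Finset (Fin D),
      ω.map (Tv ((fun j => if j ∈ S then (M : ℤ) * v j else 0, 0) : SZ D t)) = ω := by
    classical
    intro S
    induction S using Finset.induction_on with
    | empty =>
      have : ((fun j => if j ∈ (∅ : Finset (Fin D)) then (M : ℤ) * v j else 0, 0) : SZ D t) = 0 := by
        refine Prod.ext ?_ rfl
        funext j
        simp
      rw [this]
      exact h0
    | insert i S hi ih =>
      have : ((fun j => if j ∈ insert i S then (M : ℤ) * v j else 0, 0) : SZ D t) =
          (fun j => if j ∈ S then (M : ℤ) * v j else 0, 0) + (Pi.single i ((M : ℤ) * v i), 0) := by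
        refine Prod.ext ?_ (by simp)
        funext j
        by_cases hj : j = i
        · subst hj; simp [hi]
        · simp [hj]
      rw [this]
      exact inv_add ih (h2 i (v i))
  have h4 := h3 Finset.univ
  simpa using h4

lemma inv_dvd {ω : Measure (LZ D t → G)} {M : ℕ} (hT : IsP M ω) (w : Fin D → ℤ)
    (hw : ∀ j, (M : ℤ) ∣ w j) : ω.map (Tv ((w, 0) : SZ D t)) = ω := by
  choose v hv using hw
  have : w = fun j => (M : ℤ) * v j := funext hv
  rw [this]
  exact inv_per hT v

end per

end

end Pool.Agent.H991.PS
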