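import Mathlib
import Pool.Agent.H991.PS.Mul
import Pool.Agent.H991.AP.Fin

/-!
# Periodic Gibbs states: the equations and the averages
-/

open MeasureTheory Matrix Filter
open scoped Matrix.Norms.Frobenius Topology
open Pool.Agent.N899.SB
open Pool.Agent.N899.BB (we)
open Pool.Agent.Y14.Wilson
open Pool.Agent.H991.DC
open Pool.Agent.H991.AP

namespace Pool.Agent.H991.PS

noncomputable section

lemma per_sum (D : ℕ) {M : ℕ} (hM : 0 < M) (n : ℕ) (a : (Fin D → ℤ) → ℝ)
    (ha : ∀ x y : Fin D → ℤ, a (fun j => x j + M * y j) = a x) :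
    ∑ x ∈ Qb D 0 ((M * n : ℕ) : ℤ), a x = (n : ℝ) ^ D * ∑ r ∈ Qb D 0 (M : ℤ), a r := by
  have hM0 : (0 : ℤ) < M := by exact_mod_cast hM
  have h1 : ∑ x ∈ Qb D 0 ((M * n : ℕ) : ℤ), a x =
      ∑ p ∈ Qb D 0 (M : ℤ) ×ˢ Qb D 0 (n : ℤ), a p.1 := by
    refine Finset.sum_nbij' (fun x => (fun j => x j % M, fun j => x j / M))
      (fun p j => p.1 j + M * p.2 j) ?_ ?_ ?_ ?_ ?_
    · intro x hx
      rw [mem_Qb] at hx
      rw [Finset.mem_product, mem_Qb, mem_Qb]
      refine ⟨fun j => ⟨Int.emod_nonneg _ hM0.ne', Int.emod_lt_of_pos _ hM0⟩, fun j => ⟨?_, ?_⟩⟩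
      · exact Int.ediv_nonneg (hx j).1 hM0.le
      · refine Int.ediv_lt_of_lt_mul hM0 ?_
        have := (hx j).2
        push_cast at this
        linarith [mul_comm (M : ℤ) n]
    · intro p hp
      rw [Finset.mem_product, mem_Qb, mem_Qb] at hp
      rw [mem_Qb]
      intro j
      obtain ⟨h1, h2⟩ := hp
      have a1 := h1 j
      have a2 := h2 j
      refine ⟨add_nonneg a1.1 (mul_nonneg hM0.le a2.1), ?_⟩
      push_cast
      nlinarith [mul_le_mul_of_nonneg_left (Int.add_one_le_iff.2 a2.2) hM0.le]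
    · intro x _
      funext j
      exact Int.emod_add_mul_ediv _ _
    · intro p hp
      rw [Finset.mem_product, mem_Qb, mem_Qb] at hp
      refine Prod.ext (funext fun j => ?_) (funext fun j => ?_)
      · have a1 := hp.1 j
        simp only
        rw [Int.add_mul_emod_self_left]
        exact Int.emod_eq_of_lt a1.1 a1.2
      · have a1 := hp.1 j
        simp only
        rw [Int.add_mul_ediv_left _ _ hM0.ne', Int.ediv_eq_zero_of_lt a1.1 a1.2, zero_add]
    · intro x _
      simp only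
      have h2 := ha (fun j => x j % M) (fun j => x j / M)
      rw [← h2]
      congr 1
      funext j
      exact (Int.emod_add_mul_ediv _ _).symm
  rw [h1, Finset.sum_product]
  simp only [Finset.sum_const, card_Qb, nsmul_eq_mul]
  rw [Finset.mul_sum]
  have : ((n : ℤ) - 0).toNat = n := by omega
  rw [this]
  push_cast
  rfl

variable {N : ℕ} {G : Subgroup (UU N)} [MeasurableSpace G] [BorelSpace G] [CompactSpace G]
  [SecondCountableTopology G] (μ : Measure G) [IsProbabilityMeasure μ] [μ.IsHaarMeasure]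
  {D t : ℕ} [NeZero t]

/-- the equations of the periodic Gibbs states -/
def EqP (M : ℕ) (β : ℝ) (k : Fin D ⊕ Finset (LZ D t)) (F : (LZ D t → G) → ℝ) (U : LZ D t → G) : ℝ :=
  match k with
  | Sum.inl i => F (Tv (pv D t M i) U)
  | Sum.inr Λ => spec μ β Λ F U

lemma EqP_cont (M : ℕ) (β : ℝ) (k : Fin D ⊕ Finset (LZ D t)) (F : (LZ D t → G) → ℝ)
    (hF : Continuous F) : Continuous (EqP μ M β k F) := by
  cases k with
  | inl i => exact hF.comp (Tv_cont _)
  | inr Λ => exact spec_cont μ β Λ hF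

lemma SolP_iff (M : ℕ) (β : ℝ) (ω : Measure (LZ D t → G)) :
    Sol (EqP μ M β) ω ↔ IsProbabilityMeasure ω ∧ IsG μ β ω ∧ IsP M ω := by
  constructor
  · rintro ⟨h1, h2⟩
    refine ⟨h1, fun Λ F hF => h2 (Sum.inr Λ) F hF, fun i => ?_⟩
    have hTm : Measurable (Tv (pv D t M i) : (LZ D t → G) → (LZ D t → G)) := (Tv_cont _).measurable
    have hpm : IsProbabilityMeasure (ω.map (Tv (pv D t M i))) :=
      Measure.isProbabilityMeasure_map hTm.aemeasurable
    refine ext_of_forall_integral_eq_of_IsFiniteMeasure fun f => ?_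
    rw [integral_map hTm.aemeasurable f.continuous.measurable.aestronglyMeasurable]
    exact h2 (Sum.inl i) f f.continuous
  · rintro ⟨h1, h2, h3⟩
    refine ⟨h1, fun k F hF => ?_⟩
    cases k with
    | inl i =>
      have h4 := integral_map (μ := ω) (Tv_cont (G := G) (d := D + 1) (pv D t M i)).measurable.aemeasurable
        (f := F) hF.measurable.aestronglyMeasurable
      rw [h3 i] at h4
      exact h4.symm
    | inr Λ => exact h2 Λ F hF

/-- the index of the box of side `M (n + 1)` -/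
def ix (M n : ℕ) : ℕ := M * (n + 1) - 1

lemma ix_succ {M : ℕ} (hM : 0 < M) (n : ℕ) : ix M n + 1 = M * (n + 1) := by
  unfold ix
  have : 0 < M * (n + 1) := Nat.mul_pos hM (by omega)
  omega

lemma ix_tendsto {M : ℕ} (hM : 0 < M) : Tendsto (ix M) atTop atTop := by
  refine tendsto_atTop_mono (fun n => ?_) tendsto_id
  have h1 := ix_succ hM n
  have h2 : n + 1 ≤ M * (n + 1) := Nat.le_mul_of_pos_left _ hM
  simp only [id]
  omega

/-- the density -/
def avM (D : ℕ) {t : ℕ} (M : ℕ) (ε : ℝ) (z : G) (n : ℕ) : (LZ D t → G) → ℝ := avg D ε z 1 (ix M n)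

lemma avM_int {ω : Measure (LZ D t → G)} [IsProbabilityMeasure ω] {M : ℕ} (hM : 0 < M)
    (hT : IsP M ω) (ε : ℝ) (z : G) (n : ℕ) :
    ∫ U, avM D M ε z n U ∂ω = ((M : ℝ) ^ D)⁻¹ *
      ∑ r ∈ Qb D 0 (M : ℤ), ∫ U, fz ε z (PolZ U r) ∂ω := by
  unfold avM avg
  rw [integral_const_mul, integral_finsetSum _ fun x _ => cont_int (fzP_cont ε z x) ω,
    ix_succ hM, per_sum D hM (n + 1) (fun x => ∫ U, fz ε z (PolZ U x) ∂ω)]
  · push_cast
    have h1 : (0 : ℝ) < ((n : ℝ) + 1) ^ D := by positivity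
    have h2 : (0 : ℝ) < (M : ℝ) ^ D := by
      have : (0 : ℝ) < M := by exact_mod_cast hM
      positivity
    rw [one_mul, mul_pow]
    field_simp
  · intro x y
    have h1 := integral_map (μ := ω)
      (Tv_cont (G := G) (d := D + 1) ((fun j => (M : ℤ) * y j, 0) : SZ D t)).measurable.aemeasurable
      (f := fun U => fz ε z (PolZ U x)) (fzP_cont ε z x).measurable.aestronglyMeasurable
    rw [inv_per hT] at h1
    rw [h1]
    refine integral_congr_ae (Eventually.of_forall fun U => ?_)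
    simp only
    rw [PolZ_Tv]
    rfl

lemma avM_shift (ε : ℝ) {z : G} (hz : z ∈ Subgroup.center G) (n : ℕ) (i : Fin D) (m : ℕ)
    (U : LZ D t → G) :
    |avg D ε z 1 n U - avg D ε z 1 n (Tv (pv D t m i) U)| ≤ m *
      (((((n + 1 : ℕ) : ℝ) + 1) ^ D - (((n + 1 : ℕ) : ℝ) - 1) ^ D) / ((n + 1 : ℕ) : ℝ) ^ D) := by
  induction m with
  | zero =>
    have h0 : pv D t 0 i = 0 := by
      unfold pv
      simp
    rw [h0, Tv_zero, sub_self, abs_zero, Nat.cast_zero, zero_mul]
  | succ m ih =>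
    have h0 : pv D t (m + 1) i = evZ D t i.castSucc + pv D t m i := by
      rw [evZ_cast]
      unfold pv
      refine Prod.ext ?_ (by simp)
      funext j
      by_cases hj : j = i
      · subst hj
        simp
        ring
      · simp [hj]
    rw [h0, ← Tv_Tv]
    have h1 := avg_shift (D := D) (t := t) ε hz one_pos n i.castSucc (Tv (pv D t m i) U)
    rw [inv_one, one_mul] at h1
    push_cast
    push_cast at ih h1
    calc _ ≤ |avg D ε z 1 n U - avg D ε z 1 n (Tv (pv D t m i) U)| +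
          |avg D ε z 1 n (Tv (pv D t m i) U) -
            avg D ε z 1 n (Tv (evZ D t i.castSucc) (Tv (pv D t m i) U))| := abs_sub_le _ _ _
      _ ≤ _ := by linarith

lemma hinvP {ω : Measure (LZ D t → G)} [IsProbabilityMeasure ω] {M : ℕ} (hM : 0 < M)
    (hT : IsP M ω) (ε : ℝ) {z : G} (hz : z ∈ Subgroup.center G) (i : Fin D)
    {F : (LZ D t → G) → ℝ} (hF : Continuous F) :
    Tendsto (fun n => ∫ U, F (Tv (pv D t M i) U) * avM D M ε z n U ∂ω -
      ∫ U, F U * avM D M ε z n U ∂ω) atTop (𝓝 0) := by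
  obtain ⟨C, hC0, hC⟩ := cont_bd hF
  have hTc : Continuous (Tv (pv D t M i) : (LZ D t → G) → (LZ D t → G)) := Tv_cont _
  have hlim := (((bdry_lim D).comp (ix_tendsto hM)).const_mul (C * (M : ℝ)))
  rw [mul_zero] at hlim
  refine squeeze_zero_norm (fun n => ?_) hlim
  have ha : Continuous (avM D M ε z n : (LZ D t → G) → ℝ) := avg_cont ε z 1 (ix M n)
  have h1 : ∫ U, F U * avM D M ε z n U ∂ω =
      ∫ U, F (Tv (pv D t M i) U) * avM D M ε z n (Tv (pv D t M i) U) ∂ω := by
    have h2 := integral_map (μ := ω) hTc.measurable.aemeasurable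
      (f := fun U => F U * avM D M ε z n U) (hF.mul ha).measurable.aestronglyMeasurable
    rw [hT i] at h2
    exact h2
  have i1 : Integrable (fun U => F (Tv (pv D t M i) U) * avM D M ε z n U) ω :=
    cont_int ((hF.comp hTc).mul ha) ω
  have i2 : Integrable (fun U => F (Tv (pv D t M i) U) * avM D M ε z n (Tv (pv D t M i) U)) ω :=
    cont_int ((hF.comp hTc).mul (ha.comp hTc)) ω
  rw [h1, ← integral_sub i1 i2]
  refine (norm_integral_le_of_norm_le_const (C := C * (M : ℝ) *
    (((((ix M n + 1 : ℕ) : ℝ) + 1) ^ D - (((ix M n + 1 : ℕ) : ℝ) - 1) ^ D) /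
      ((ix M n + 1 : ℕ) : ℝ) ^ D))
    (Eventually.of_forall fun U => ?_)).trans (le_of_eq ?_)
  · rw [Real.norm_eq_abs, ← mul_sub, abs_mul, mul_assoc]
    exact mul_le_mul (hC _) (avM_shift ε hz (ix M n) i M U) (abs_nonneg _) hC0
  · rw [probReal_univ, mul_one]
    rfl

lemma hinvQ {β : ℝ} {M : ℕ} (hM : 0 < M) {ω : Measure (LZ D t → G)} (hω : Sol (EqP μ M β) ω)
    (hD : D ≠ 0) (ε : ℝ) {z : G} (hz : z ∈ Subgroup.center G) (k : Fin D ⊕ Finset (LZ D t))
    {F : (LZ D t → G) → ℝ} (hF : Continuous F) :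
    Tendsto (fun n => ∫ U, EqP μ M β k F U * avM D M ε z n U ∂ω -
      ∫ U, F U * avM D M ε z n U ∂ω) atTop (𝓝 0) := by
  obtain ⟨h1, h2, h3⟩ := (SolP_iff μ M β ω).1 hω
  cases k with
  | inl i => exact hinvP hM h3 ε hz i hF
  | inr Λ => exact (hinvL μ h2 hD ε z Λ hF).comp (ix_tendsto hM)

end

end Pool.Agent.H991.PS
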