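import Mathlib
import Pool.Agent.H991.PS.Ext
import Pool.Agent.H991.PS.Dec

/-!
# Periodic Gibbs states: the estimates for the decomposition into the phases
-/

open MeasureTheory Matrix Filter
open scoped Matrix.Norms.Frobenius Topology ENNReal
open Pool.Agent.N899.SB
open Pool.Agent.N899.BB (we)
open Pool.Agent.Y14.Wilson
open Pool.Agent.H991.DC
open Pool.Agent.H991.AP hiding Cph Cph_zero Cph_smul Cph_sum dec_step dec_cone dec gib_step

namespace Pool.Agent.H991.PS

noncomputable section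

variable {N : ℕ} {G : Subgroup (UU N)} [MeasurableSpace G] [BorelSpace G] [CompactSpace G]
  [SecondCountableTopology G] (μ : Measure G) [IsProbabilityMeasure μ] [μ.IsHaarMeasure]
  {D t : ℕ} [NeZero t]

omit [MeasurableSpace G] [BorelSpace G] [CompactSpace G] [SecondCountableTopology G] [NeZero t] in
lemma fz_cor2 {ε : ℝ} (hε : 0 < ε)
    (hd : ∀ z ∈ Subgroup.center G, ∀ z' ∈ Subgroup.center G, ‖mt z - mt z'‖ ≤ 4 * ε → z = z')
    {z : G} (hz : z ∈ Subgroup.center G) (x y : Fin D → ℤ) (U : LZ D t → G) :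
    (1 - fz ε z (PolZ U y)) * fz ε z (PolZ U x) ≤ Set.indicator {U | ¬ Cl ε x y U} 1 U := by
  by_cases hU : Cl ε x y U
  · rw [Set.indicator_of_notMem (by simpa using hU)]
    obtain ⟨w, hw, h1, h2⟩ := hU
    by_cases h3 : fz ε z (PolZ U x) = 0
    · rw [h3, mul_zero]
    · have h4 : ‖mt (PolZ U x) - mt z‖ ≤ 2 * ε := by
        by_contra hcon
        exact h3 (fz_zero hε (not_le.1 hcon).le)
      have h5 : z = w := by
        refine hd z hz w hw ?_
        calc ‖mt z - mt w‖ ≤ ‖mt z - mt (PolZ U x)‖ + ‖mt (PolZ U x) - mt w‖ :=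
              norm_sub_le_norm_sub_add_norm_sub _ _ _
          _ ≤ 4 * ε := by rw [norm_sub_rev]; linarith
      rw [h5, fz_one hε h2, sub_self, zero_mul]
  · rw [Set.indicator_of_mem (by simpa using hU), Pi.one_apply]
    have h1 := fz_nonneg ε z (PolZ U y)
    have h2 := fz_le ε z (PolZ U y)
    have h3 := fz_nonneg ε z (PolZ U x)
    have h4 := fz_le ε z (PolZ U x)
    nlinarith

/-- the step of the decomposition for the periodic Gibbs states -/
theorem gib_step [Fintype (Subgroup.center G)] {M : ℕ} (hM : 0 < M) {β : ℝ} (hD : D ≠ 0)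
    {ε η δ : ℝ} (hε : 0 < ε) (hη : 0 ≤ η) (hδ : 0 < δ)
    (hd : ∀ z ∈ Subgroup.center G, ∀ z' ∈ Subgroup.center G, ‖mt z - mt z'‖ ≤ 4 * ε → z = z')
    (hsmall : η + Fintype.card (Subgroup.center G) * (η / δ) ≤ 1 / 2)
    (h2 : ∀ ω : Measure (LZ D t → G), Sol (EqP μ M β) ω → ∀ x y : Fin D → ℤ,
      ω.real {U | ¬ Cl ε x y U} ≤ η) (ω : Measure (LZ D t → G)) (hω : Sol (EqP μ M β) ω) :
    ∃ (m : Subgroup.center G → Measure (LZ D t → G)) (r : Measure (LZ D t → G)),
      (∀ z : Subgroup.center G, Cph (EqP μ M β)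
        (fun (y : Fin D → ℤ) U => fz ε (z : G) (PolZ U y)) δ (m z)) ∧
      Con (EqP μ M β) r ∧ r.real Set.univ ≤ 1 / 2 ∧ ω = ∑ z, m z + r := by
  obtain ⟨i1, -, hT⟩ := (SolP_iff μ M β ω).1 hω
  have hcm : ∀ x y : Fin D → ℤ, MeasurableSet {U : LZ D t → G | ¬ Cl ε x y U} :=
    fun x y => (Cl_meas ε x y).compl
  have hMr : (0 : ℝ) < (M : ℝ) ^ D := by
    have : (0 : ℝ) < M := by exact_mod_cast hM
    positivity
  refine dec_step (Z := Subgroup.center G) (EqP_cont μ M β) hω
    (fun (z : Subgroup.center G) (y : Fin D → ℤ) U => fz ε (z : G) (PolZ U y))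
    (fun z y => fzP_cont ε _ y)
    (fun (z : Subgroup.center G) n => avM D M ε (z : G) n) (fun z n => avg_cont ε _ 1 _)
    (fun z n x => (avg_bd ε _ one_pos _ x).1) (fun n U => ?_)
    (fun z : Subgroup.center G => ((M : ℝ) ^ D)⁻¹ *
      ∑ r ∈ Qb D 0 (M : ℤ), ∫ U, fz ε (z : G) (PolZ U r) ∂ω) (fun z n => avM_int hM hT ε _ n)
    (fun z k F hF => hinvQ μ hM hω hD ε z.2 k hF) hη hδ (fun z y n => ?_) ?_ hsmall
  · unfold avM
    have h1 : (0 : ℝ) < ((ix M n + 1 : ℕ) : ℝ) ^ D := by positivity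
    have h3 : ∑ z : Subgroup.center G, avg D ε (z : G) 1 (ix M n) U =
        (1 * ((ix M n + 1 : ℕ) : ℝ) ^ D)⁻¹ * ∑ x ∈ Qb D 0 ((ix M n + 1 : ℕ) : ℤ),
          ∑ z : Subgroup.center G, fz ε (z : G) (PolZ U x) := by
      unfold avg
      rw [← Finset.mul_sum, Finset.sum_comm]
    rw [h3, one_mul, inv_mul_le_iff₀ h1, mul_one]
    calc ∑ x ∈ Qb D 0 ((ix M n + 1 : ℕ) : ℤ), ∑ z : Subgroup.center G, fz ε (z : G) (PolZ U x) ≤
          ∑ _x ∈ Qb D 0 ((ix M n + 1 : ℕ) : ℤ), (1 : ℝ) :=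
          Finset.sum_le_sum fun x _ => fz_sum_le hε hd _
      _ = _ := by
          rw [Finset.sum_const, nsmul_eq_mul, mul_one, card_Qb]
          have : (((ix M n + 1 : ℕ) : ℤ) - 0).toNat = ix M n + 1 := by omega
          rw [this]
          push_cast
          rfl
  · unfold avM
    have h1 : (0 : ℝ) < ((ix M n + 1 : ℕ) : ℝ) ^ D := by positivity
    have hfc : ∀ x : Fin D → ℤ, Continuous fun U : LZ D t → G =>
        (1 - fz ε (z : G) (PolZ U y)) * fz ε (z : G) (PolZ U x) := fun x =>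
      (continuous_const.sub (fzP_cont ε _ y)).mul (fzP_cont ε _ x)
    have h3 : ∀ U : LZ D t → G, (1 - fz ε (z : G) (PolZ U y)) * avg D ε (z : G) 1 (ix M n) U =
        (1 * ((ix M n + 1 : ℕ) : ℝ) ^ D)⁻¹ * ∑ x ∈ Qb D 0 ((ix M n + 1 : ℕ) : ℤ),
          (1 - fz ε (z : G) (PolZ U y)) * fz ε (z : G) (PolZ U x) := by
      intro U
      unfold avg
      rw [← Finset.mul_sum]
      ring
    simp only [h3]
    rw [integral_const_mul, integral_finsetSum _ fun x _ => cont_int (hfc x) ω, one_mul,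
      inv_mul_le_iff₀ h1]
    calc ∑ x ∈ Qb D 0 ((ix M n + 1 : ℕ) : ℤ),
          ∫ U, (1 - fz ε (z : G) (PolZ U y)) * fz ε (z : G) (PolZ U x) ∂ω ≤
          ∑ _x ∈ Qb D 0 ((ix M n + 1 : ℕ) : ℤ), η := by
          refine Finset.sum_le_sum fun x _ => ?_
          refine le_trans ?_ (h2 ω hω x y)
          rw [← integral_indicator_one (hcm x y)]
          exact integral_mono (cont_int (hfc x) ω) ((integrable_const _).indicator (hcm x y))
            fun U => fz_cor2 hε hd z.2 x y U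
      _ = _ := by
          rw [Finset.sum_const, nsmul_eq_mul, card_Qb]
          have : (((ix M n + 1 : ℕ) : ℤ) - 0).toNat = ix M n + 1 := by omega
          rw [this]
          push_cast
          rfl
  · rw [← Finset.mul_sum, Finset.sum_comm, le_inv_mul_iff₀ hMr]
    have h3 : ∀ r ∈ Qb D 0 (M : ℤ), 1 - η ≤
        ∑ z : Subgroup.center G, ∫ U, fz ε (z : G) (PolZ U r) ∂ω := by
      intro r _
      rw [← integral_finsetSum _ fun z _ => cont_int (fzP_cont ε _ r) ω]
      have h3 : 1 - η ≤ ω.real {U | Cl ε r r U} := by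
        have h4 := probReal_compl_eq_one_sub (μ := ω) (Cl_meas (D := D) (t := t) (G := G) ε r r)
        have h5 := h2 ω hω r r
        have h6 : {U : LZ D t → G | ¬ Cl ε r r U} = {U | Cl ε r r U}ᶜ := rfl
        rw [h6, h4] at h5
        linarith
      refine h3.trans ?_
      rw [← integral_indicator_one (Cl_meas ε r r)]
      refine integral_mono ((integrable_const _).indicator (Cl_meas ε r r))
        (integrable_finsetSum _ fun z _ => cont_int (fzP_cont ε _ r) ω) fun U => ?_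
      simp only
      by_cases hU : Cl ε r r U
      · rw [Set.indicator_of_mem (by simpa using hU), Pi.one_apply]
        obtain ⟨w, hw, h4, -⟩ := hU
        have h5 : fz ε w (PolZ U r) = 1 := fz_one hε h4
        calc (1 : ℝ) = fz ε (((⟨w, hw⟩ : Subgroup.center G)) : G) (PolZ U r) := h5.symm
          _ ≤ _ := Finset.single_le_sum (f := fun z : Subgroup.center G => fz ε (z : G) (PolZ U r))
              (fun z _ => fz_nonneg _ _ _) (Finset.mem_univ _)
      · rw [Set.indicator_of_notMem (by simpa using hU)]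
        exact Finset.sum_nonneg fun z _ => fz_nonneg _ _ _
    calc (M : ℝ) ^ D * (1 - η) = ∑ _r ∈ Qb D 0 (M : ℤ), (1 - η) := by
          rw [Finset.sum_const, nsmul_eq_mul, card_Qb]
          have : ((M : ℤ) - 0).toNat = M := by omega
          rw [this]
          push_cast
          rfl
      _ ≤ _ := Finset.sum_le_sum h3

/-- the order parameter controls the loop -/
lemma ord_of_fz2 {ω : Measure (LZ D t → G)} [IsProbabilityMeasure ω] {ε ε' η : ℝ}
    (hε : 0 < ε) (hεε : 2 * ε ≤ ε') {z : G} {x : Fin D → ℤ}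
    (h : 1 - η ≤ ∫ U, fz ε z (PolZ U x) ∂ω) :
    1 - η ≤ ω.real {U | ‖mt (PolZ U x) - mt z‖ ≤ ε'} := by
  have hS : MeasurableSet {U : LZ D t → G | ‖mt (PolZ U x) - mt z‖ ≤ ε'} :=
    measurableSet_le (nrm_cont x _).measurable measurable_const
  refine h.trans ?_
  rw [← integral_indicator_one hS]
  refine integral_mono (cont_int (fzP_cont ε z x) ω) ((integrable_const _).indicator hS)
    fun U => ?_
  by_cases hU : U ∈ {U : LZ D t → G | ‖mt (PolZ U x) - mt z‖ ≤ ε'}
  · rw [Set.indicator_of_mem hU]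
    exact fz_le _ _ _
  · rw [Set.indicator_of_notMem hU]
    have h2 : ε' < ‖mt (PolZ U x) - mt z‖ := not_le.1 hU
    simp only
    rw [fz_zero hε (by linarith)]

/-- the mixtures -/
def Mix (M : ℕ) (β ε η : ℝ) (ω : Measure (LZ D t → G)) : Prop :=
  ∃ (p : Subgroup.center G → ℝ) (ν : Subgroup.center G → Measure (LZ D t → G)),
    (∀ z : Subgroup.center G, 0 ≤ p z ∧ Sol (EqP μ M β) (ν z) ∧ Ord ε η (z : G) (ν z)) ∧
    ω = Measure.sum fun z => ENNReal.ofReal (p z) • ν z

/-- the mixtures from the cones -/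
lemma mix_of_dec [Fintype (Subgroup.center G)] {M : ℕ} {β ε ε' δ : ℝ} (hε : 0 < ε)
    (hεε : 2 * ε ≤ ε')
    (hex : ∀ z : Subgroup.center G, ∃ ν : Measure (LZ D t → G),
      Sol (EqP μ M β) ν ∧ Ord ε' δ (z : G) ν)
    (ω : Measure (LZ D t → G)) (m : Subgroup.center G → Measure (LZ D t → G))
    (hm : ∀ z : Subgroup.center G, Cph (EqP μ M β)
      (fun (y : Fin D → ℤ) U => fz ε (z : G) (PolZ U y)) δ (m z))
    (hω : ω = ∑ z, m z) : Mix μ M β ε' δ ω := by
  have h : ∀ z : Subgroup.center G, ∃ (p : ℝ) (ν : Measure (LZ D t → G)),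
      (0 ≤ p ∧ Sol (EqP μ M β) ν ∧ Ord ε' δ (z : G) ν) ∧ m z = ENNReal.ofReal p • ν := by
    intro z
    have hfin := (hm z).1.1
    rcases eq_or_ne (m z) 0 with h0 | h0
    · obtain ⟨ν, hν, hν'⟩ := hex z
      exact ⟨0, ν, ⟨le_rfl, hν, hν'⟩, by rw [h0]; simp⟩
    · obtain ⟨q, hq⟩ : ∃ q, q = m z Set.univ := ⟨_, rfl⟩
      have hq0 : q ≠ 0 := by
        rw [hq]
        exact fun h => h0 (Measure.measure_univ_eq_zero.1 h)
      have hqt : q ≠ ∞ := by rw [hq]; exact measure_ne_top _ _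
      have hqi : q⁻¹ ≠ ∞ := ENNReal.inv_ne_top.2 hq0
      have hC := Cph_smul (hm z) hqi
      have hp : IsProbabilityMeasure (q⁻¹ • m z) := by
        refine ⟨?_⟩
        rw [Measure.smul_apply, smul_eq_mul, ← hq]
        exact ENNReal.inv_mul_cancel hq0 hqt
      have hS : Sol (EqP μ M β) (q⁻¹ • m z) := ⟨hp, hC.1.2⟩
      refine ⟨q.toReal, q⁻¹ • m z, ⟨ENNReal.toReal_nonneg, hS, fun y => ?_⟩, ?_⟩
      · refine ord_of_fz2 hε hεε ?_
        have h1 := hC.2 y
        rw [probReal_univ, mul_one, integral_sub (integrable_const _)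
          (cont_int (fzP_cont ε _ y) _), integral_const, probReal_univ, one_smul] at h1
        linarith
      · rw [ENNReal.ofReal_toReal hqt, smul_smul, ENNReal.mul_inv_cancel hq0 hqt, one_smul]
  choose p ν hpν hmν using h
  refine ⟨p, ν, hpν, ?_⟩
  rw [Measure.sum_fintype, hω]
  exact Finset.sum_congr rfl fun z _ => hmν z

/-- extremal mixtures -/
lemma ext_mix {M : ℕ} {β ε η : ℝ} {ω : Measure (LZ D t → G)} (hω : Extr (Sol (EqP μ M β)) ω)
    (hmix : Mix μ M β ε η ω) : ∃ z ∈ Subgroup.center G, Ord ε η z ω := by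
  obtain ⟨p, ν, hp, hsum⟩ := hmix
  have i1 := hω.1.1
  have hex : ∃ z, 0 < p z := by
    by_contra hcon
    push Not at hcon
    have h0 : ω = 0 := by
      rw [hsum]
      have h1 : (fun z => ENNReal.ofReal (p z) • ν z) = fun _ => 0 := by
        funext z
        rw [ENNReal.ofReal_of_nonpos (hcon z), zero_smul]
      rw [h1, Measure.sum_zero]
    exact IsProbabilityMeasure.ne_zero ω h0
  obtain ⟨z, hz⟩ := hex
  obtain ⟨-, hS, hO⟩ := hp z
  refine ⟨z, z.2, ?_⟩
  have hle : ENNReal.ofReal (p z) • ν z ≤ ω := by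
    rw [hsum]
    exact Measure.le_sum (fun z => ENNReal.ofReal (p z) • ν z) z
  have hpi : 0 < (p z)⁻¹ := inv_pos.2 hz
  have hdom : ν z ≤ ENNReal.ofReal ((p z)⁻¹ + 1) • ω := by
    calc ν z = ENNReal.ofReal (p z)⁻¹ • (ENNReal.ofReal (p z) • ν z) := by
          rw [smul_smul, ← ENNReal.ofReal_mul hpi.le, inv_mul_cancel₀ hz.ne', ENNReal.ofReal_one,
            one_smul]
      _ ≤ ENNReal.ofReal (p z)⁻¹ • ω := by
          refine Measure.le_iff.2 fun E hE => ?_
          rw [Measure.smul_apply, Measure.smul_apply, smul_eq_mul, smul_eq_mul]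
          exact mul_le_mul' le_rfl (Measure.le_iff'.1 hle E)
      _ ≤ _ := by
          refine Measure.le_iff.2 fun E hE => ?_
          rw [Measure.smul_apply, Measure.smul_apply, smul_eq_mul, smul_eq_mul]
          exact mul_le_mul' (ENNReal.ofReal_le_ofReal (by linarith)) le_rfl
  have := dom_eq (EqP_cont μ M β) hω hS (by linarith : 1 < (p z)⁻¹ + 1) hdom
  rw [← this]
  exact hO

end

end Pool.Agent.H991.PS
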