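import Mathlib
import Pool.Agent.H991.PS.Fin
import Pool.Agent.H991.PS.Two
import Pool.Agent.H991.AP.Fin2

/-!
# The spatially periodic Gibbs states at weak coupling
-/

open MeasureTheory Matrix Filter
open scoped Matrix.Norms.Frobenius Topology ENNReal
open Pool.Agent.N899.SB
open Pool.Agent.N899.BB (we)
open Pool.Agent.Y14.Wilson
open Pool.Agent.H991.DC
open Pool.Agent.H991.AP hiding Cph Cph_zero Cph_smul Cph_sum dec_step dec_cone dec gib_step Mix
  mix_of_dec ext_mix mul_step mul_bad two_core two_pt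

namespace Pool.Agent.H991.PS

noncomputable section

theorem main_per {N : ℕ} (G : Subgroup (UU N)) (hG : IsClosed (G : Set (UU N)))
    [PreconnectedSpace G] [Finite (Subgroup.center G)] [MeasurableSpace G] [BorelSpace G]
    (μ : Measure G) [IsProbabilityMeasure μ] [μ.IsHaarMeasure] (D : ℕ) (hD : 2 ≤ D) :
    ∃ κ : ℝ, 0 < κ ∧ ∃ ε0 : ℝ, 0 < ε0 ∧ ∀ ε : ℝ, 0 < ε → ε < ε0 → ∃ β0 : ℝ, 1 ≤ β0 ∧
    ∀ β : ℝ, β0 ≤ β → ∀ (t : ℕ) [NeZero t], (t : ℝ) ≤ β ^ κ → ∀ M : ℕ, 0 < M →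
    (∀ z ∈ Subgroup.center G, ∃ ω : Measure (LZ D t → G), Extr (Sol (EqP μ M β)) ω ∧
      Ord ε (Real.exp (-β ^ κ)) z ω) ∧
    (∀ ω : Measure (LZ D t → G), Extr (Sol (EqP μ M β)) ω →
      ∃! z, z ∈ Subgroup.center G ∧ Ord ε (Real.exp (-β ^ κ)) z ω) ∧
    (∀ ω : Measure (LZ D t → G), Sol (EqP μ M β) ω → Mix μ M β ε (Real.exp (-β ^ κ)) ω) := by
  have hcG := Pool.Agent.N899.BB.Est.compactG hG
  have hsG : SecondCountableTopology G := Pool.Agent.N899.BB.Est.scG
  have hFt : Fintype (Subgroup.center G) := Fintype.ofFinite _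
  obtain ⟨κ1, hκ1, htwo⟩ := two_pt G hG μ D hD
  obtain ⟨κ2, hκ2, hinf⟩ := main_inf G hG μ D hD
  obtain ⟨κ, hκ⟩ : ∃ κ, κ = min κ1 κ2 / 2 := ⟨_, rfl⟩
  have hκm : 0 < min κ1 κ2 := lt_min hκ1 hκ2
  have hκ0 : 0 < κ := by rw [hκ]; positivity
  have hκκ1 : κ + κ ≤ κ1 := by
    have := min_le_left κ1 κ2
    rw [hκ]
    linarith
  have hκκ2 : κ ≤ κ2 := by
    have := min_le_right κ1 κ2
    rw [hκ]
    linarith
  obtain ⟨d, hd, hsep⟩ := center_sep G
  refine ⟨κ, hκ0, d / 2, by positivity, fun ε hε hεd => ?_⟩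
  obtain ⟨ε1, hε1⟩ : ∃ ε1, ε1 = min (ε / 2) (d / 4) := ⟨_, rfl⟩
  have hε10 : 0 < ε1 := by rw [hε1]; exact lt_min (by positivity) (by positivity)
  have hε1ε : 2 * ε1 ≤ ε := by
    have : ε1 ≤ ε / 2 := by rw [hε1]; exact min_le_left _ _
    linarith
  have hε1d : 4 * ε1 ≤ d := by
    have : ε1 ≤ d / 4 := by rw [hε1]; exact min_le_right _ _
    linarith
  obtain ⟨β1, hβ1, h1⟩ := htwo ε1 hε10
  obtain ⟨β2, hβ2, h2⟩ := hinf ε1 hε10
  obtain ⟨c, hc⟩ : ∃ c : ℝ, c = Fintype.card (Subgroup.center G) := ⟨_, rfl⟩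
  have hc1 : 1 ≤ c := by rw [hc]; exact_mod_cast Fintype.card_pos
  have hlc : 0 ≤ Real.log (8 * c) := Real.log_nonneg (by linarith)
  obtain ⟨β3, hβ3⟩ : ∃ β3 : ℝ, β3 = (1 + Real.log (8 * c)) ^ (1 / κ) := ⟨_, rfl⟩
  have hβ30 : 0 ≤ β3 := by rw [hβ3]; positivity
  refine ⟨β1 + β2 + β3, by linarith, fun β hβ t _ ht M hM => ?_⟩
  have hβ11 : 1 ≤ β := by linarith
  obtain ⟨y, hy⟩ : ∃ y : ℝ, y = β ^ κ := ⟨_, rfl⟩
  have hy1 : 1 + Real.log (8 * c) ≤ y := by
    have h1 : β3 ^ κ ≤ β ^ κ := Real.rpow_le_rpow hβ30 (by linarith) hκ0.le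
    rw [hβ3, ← Real.rpow_mul (by positivity), one_div, inv_mul_cancel₀ hκ0.ne', Real.rpow_one] at h1
    rw [hy]
    exact h1
  have hyy : y * y ≤ β ^ κ1 := by
    rw [hy, ← Real.rpow_add (by linarith)]
    exact Real.rpow_le_rpow_of_exponent_le hβ11 hκκ1
  have ht1 : (t : ℝ) ≤ β ^ κ1 :=
    ht.trans (Real.rpow_le_rpow_of_exponent_le hβ11 (by linarith))
  have ht2 : (t : ℝ) ≤ β ^ κ2 :=
    ht.trans (Real.rpow_le_rpow_of_exponent_le hβ11 hκκ2)
  obtain ⟨η, hη⟩ : ∃ η : ℝ, η = Real.exp (-β ^ κ1) := ⟨_, rfl⟩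
  obtain ⟨δ, hδ⟩ : ∃ δ : ℝ, δ = Real.exp (-β ^ κ) := ⟨_, rfl⟩
  have hη0 : 0 < η := by rw [hη]; exact Real.exp_pos _
  have hδ0 : 0 < δ := by rw [hδ]; exact Real.exp_pos _
  have hηδ : η / δ ≤ 1 / (8 * c) := by
    rw [hη, hδ, ← Real.exp_sub, ← hy]
    have h1 : Real.log (8 * c) ≤ y * y - y := by
      have k1 : 0 ≤ y * (y - (1 + Real.log (8 * c))) :=
        mul_nonneg (by linarith) (sub_nonneg.2 hy1)
      have k2 : 0 ≤ Real.log (8 * c) * (y - 1) := mul_nonneg hlc (by linarith)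
      linarith
    calc Real.exp (-(β ^ κ1) - -y) ≤ Real.exp (-Real.log (8 * c)) :=
          Real.exp_le_exp.2 (by linarith)
      _ = 1 / (8 * c) := by rw [Real.exp_neg, Real.exp_log (by positivity), one_div]
  have hδe : δ ≤ Real.exp (-1) := by
    rw [hδ, ← hy]
    exact Real.exp_le_exp.2 (by linarith)
  have hδ2 : δ < 1 / 2 := by
    have h4 : Real.exp (-1) < 1 / 2 := by
      rw [Real.exp_neg, ← one_div, div_lt_div_iff₀ (Real.exp_pos _) (by norm_num)]
      have := Real.exp_one_gt_d9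
      linarith
    linarith
  have hsmall : η + Fintype.card (Subgroup.center G) * (η / δ) ≤ 1 / 2 := by
    rw [← hc]
    have h2 : η ≤ η / δ := by
      rw [le_div_iff₀ hδ0]
      exact mul_le_of_le_one_right hη0.le (by linarith)
    have h3 : 1 / (8 * c) ≤ 1 / 8 := one_div_le_one_div_of_le (by norm_num) (by linarith)
    have h4 : c * (η / δ) ≤ 1 / 8 := by
      calc c * (η / δ) ≤ c * (1 / (8 * c)) := mul_le_mul_of_nonneg_left hηδ (by linarith)
        _ = 1 / 8 := by field_simp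
    linarith
  have hβκ : Real.exp (-β ^ κ2) ≤ δ := by
    rw [hδ]
    exact Real.exp_le_exp.2 (neg_le_neg (Real.rpow_le_rpow_of_exponent_le hβ11 hκκ2))
  have hbase : ∀ z ∈ Subgroup.center G, ∃ ω0 : Measure (LZ D t → G), Sol (EqP μ M β) ω0 ∧
      ∀ x : Fin D → ℤ, 1 - δ ≤ ω0.real {U | ‖mt (PolZ U x) - mt z‖ ≤ ε1} := by
    intro z hz
    obtain ⟨ω0, i0, hT0, hG0, hlow⟩ := h2 β (by linarith) t ht2 z hz
    exact ⟨ω0, (SolP_iff μ M β ω0).2 ⟨i0, hG0, fun i => inv_all hT0 _⟩,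
      fun x => le_trans (by linarith) (hlow x)⟩
  have hmix : ∀ ω : Measure (LZ D t → G), Sol (EqP μ M β) ω → Mix μ M β ε δ ω := by
    intro ω hω
    obtain ⟨m, hm, hsum⟩ := dec (EqP_cont μ M β)
      (fun (z : Subgroup.center G) (y : Fin D → ℤ) U => fz ε1 (z : G) (PolZ U y))
      (fun z y => fzP_cont ε1 _ y)
      (fun ω hω => gib_step μ hM (by omega : D ≠ 0) hε10 hη0.le hδ0
        (fun z hz z' hz' hle => hsep z hz z' hz' (hle.trans hε1d)) hsmall
        (fun ω hω x y => by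
          obtain ⟨i, hG', hT'⟩ := (SolP_iff μ M β ω).1 hω
          rw [hη]
          exact h1 β (by linarith) t ht1 M hM ω hG' hT' x y) ω hω) ω
      ⟨by have := hω.1; infer_instance, hω.2⟩
    refine mix_of_dec μ hε10 hε1ε (fun z => ?_) ω m hm hsum
    obtain ⟨ν, hν, hν'⟩ := hbase z z.2
    have i1 := hν.1
    refine ⟨ν, hν, fun x => (hν' x).trans (measureReal_mono ?_)⟩
    intro U hU
    exact le_trans (show ‖mt (PolZ U x) - mt (z : G)‖ ≤ ε1 from hU) (by linarith)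
  have hsep2 : ∀ z ∈ Subgroup.center G, ∀ z' ∈ Subgroup.center G,
      ‖mt z - mt z'‖ ≤ 2 * ε → z = z' :=
    fun z hz z' hz' hle => hsep z hz z' hz' (hle.trans (by linarith))
  have hMr : (0 : ℝ) < (M : ℝ) ^ D := by
    have : (0 : ℝ) < M := by exact_mod_cast hM
    positivity
  have hcard : ((Qb D 0 (M : ℤ)).card : ℝ) = (M : ℝ) ^ D := by
    rw [card_Qb]
    have : ((M : ℤ) - 0).toNat = M := by omega
    rw [this]
    push_cast
    rfl
  have hpure : ∀ z ∈ Subgroup.center G, ∃ ω : Measure (LZ D t → G), Extr (Sol (EqP μ M β)) ω ∧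
      Ord ε δ z ω := by
    intro z hz
    obtain ⟨ω0, hS0, hlow⟩ := hbase z hz
    have i0 := hS0.1
    have hJc : Continuous fun U : LZ D t → G => ∑ r ∈ Qb D 0 (M : ℤ), fz ε1 z (PolZ U r) :=
      continuous_finsetSum _ fun r _ => fzP_cont ε1 z r
    obtain ⟨ω, hω, hmax⟩ := exists_extr (S := Sol (EqP μ M β)) (fun ω h => h.1)
      (Sol_closed (EqP_cont μ M β)) hS0 ⟨_, hJc⟩
    have i1 := hω.1.1
    refine ⟨ω, hω, ?_⟩
    obtain ⟨z', hz', hO⟩ := ext_mix μ hω (hmix ω hω.1)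
    have hzz : z = z' := by
      by_contra hne
      have h3 : ∫ U, ∑ r ∈ Qb D 0 (M : ℤ), fz ε1 z (PolZ U r) ∂ω0 ≤
          ∫ U, ∑ r ∈ Qb D 0 (M : ℤ), fz ε1 z (PolZ U r) ∂ω := hmax ω0 hS0
      have h4 : (M : ℝ) ^ D * (1 - δ) ≤ ∫ U, ∑ r ∈ Qb D 0 (M : ℤ), fz ε1 z (PolZ U r) ∂ω0 := by
        rw [integral_finsetSum _ fun r _ => cont_int (fzP_cont ε1 z r) ω0]
        calc (M : ℝ) ^ D * (1 - δ) = ∑ _r ∈ Qb D 0 (M : ℤ), (1 - δ) := by
              rw [Finset.sum_const, nsmul_eq_mul, hcard]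
          _ ≤ _ := Finset.sum_le_sum fun r _ => by
              refine (hlow r).trans ?_
              have hS : MeasurableSet {U : LZ D t → G | ‖mt (PolZ U r) - mt z‖ ≤ ε1} :=
                measurableSet_le (nrm_cont r _).measurable measurable_const
              rw [← integral_indicator_one hS]
              refine integral_mono ((integrable_const _).indicator hS)
                (cont_int (fzP_cont ε1 z r) ω0) fun U => ?_
              by_cases hU : U ∈ {U : LZ D t → G | ‖mt (PolZ U r) - mt z‖ ≤ ε1}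
              · rw [Set.indicator_of_mem hU]
                simp only
                rw [fz_one hε10 hU]
                rfl
              · rw [Set.indicator_of_notMem hU]
                exact fz_nonneg _ _ _
      have h5 : ∫ U, ∑ r ∈ Qb D 0 (M : ℤ), fz ε1 z (PolZ U r) ∂ω ≤ (M : ℝ) ^ D * δ := by
        rw [integral_finsetSum _ fun r _ => cont_int (fzP_cont ε1 z r) ω]
        calc _ ≤ ∑ _r ∈ Qb D 0 (M : ℤ), δ := Finset.sum_le_sum fun r _ => by
              have hS : MeasurableSet {U : LZ D t → G | ‖mt (PolZ U r) - mt z'‖ ≤ ε} :=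
                measurableSet_le (nrm_cont r _).measurable measurable_const
              have h6 := hO r
              have h7 := probReal_compl_eq_one_sub (μ := ω) hS
              refine le_trans ?_ (by linarith : ω.real
                {U : LZ D t → G | ‖mt (PolZ U r) - mt z'‖ ≤ ε}ᶜ ≤ δ)
              rw [← integral_indicator_one hS.compl]
              refine integral_mono (cont_int (fzP_cont ε1 z r) ω)
                ((integrable_const _).indicator hS.compl) fun U => ?_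
              by_cases hU : U ∈ {U : LZ D t → G | ‖mt (PolZ U r) - mt z'‖ ≤ ε}
              · rw [Set.indicator_of_notMem (by simpa using hU)]
                simp only
                refine le_of_eq ?_
                by_contra hne0
                apply hne
                refine hsep2 z hz z' hz' ?_
                have h8 : ‖mt (PolZ U r) - mt z‖ ≤ 2 * ε1 := by
                  by_contra hcon
                  exact hne0 (fz_zero hε10 (not_le.1 hcon).le)
                have h9 : ‖mt (PolZ U r) - mt z'‖ ≤ ε := hU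
                calc ‖mt z - mt z'‖ ≤ ‖mt z - mt (PolZ U r)‖ + ‖mt (PolZ U r) - mt z'‖ :=
                      norm_sub_le_norm_sub_add_norm_sub _ _ _
                  _ ≤ 2 * ε := by rw [norm_sub_rev]; linarith
              · rw [Set.indicator_of_mem (by simpa using hU), Pi.one_apply]
                exact fz_le _ _ _
          _ = _ := by rw [Finset.sum_const, nsmul_eq_mul, hcard]
      have h6 : 0 < (M : ℝ) ^ D * (1 / 2 - δ) := mul_pos hMr (by linarith)
      linarith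
    rw [hzz]
    exact hO
  refine ⟨?_, fun ω hω => ?_, ?_⟩
  · rw [← hδ]
    exact hpure
  · rw [← hδ]
    have i1 := hω.1.1
    obtain ⟨z, hz, hO⟩ := ext_mix μ hω (hmix ω hω.1)
    refine ⟨z, ⟨hz, hO⟩, fun z' hz' => ?_⟩
    exact ord_uniq hδ2 hsep2 hz'.1 hz hz'.2 hO
  · rw [← hδ]
    exact hmix

end

end Pool.Agent.H991.PS
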